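import Pool.Agent.H27.CAL.Stmts2

/-!
# Project CAL, module BIOA: biorthogonality, first part
-/

open scoped BigOperators ENNReal Topology
open Filter

namespace CAL

section
variable {𝕜 : Type*} [RCLike 𝕜] {A : Type*} [PartialOrder A] {Y : Type*} [NormedAddCommGroup Y]
  [NormedSpace 𝕜 Y] {τ : TreeLev A}

theorem bioa_sgN (a b : A) (y : Y) :
    (toPt (sgN (𝕜 := 𝕜) a y)).1 b = (open Classical in if b = a then y else 0) := by
  classical
  show (lp.single (E := fun _ : A => Y) ∞ a y) b = _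
  rw [lp.single_apply]
  by_cases h : b = a
  · subst h; simp
  · simp [h]

theorem bioa_sgN2 (a : A) (y : Y) (γ : ℕ) : (toPt (sgN (𝕜 := 𝕜) a y)).2 γ = 0 := rfl

theorem bioa_sgS (γ β : ℕ) : (toPt (sgS (𝕜 := 𝕜) A Y γ)).2 β = if β = γ then 1 else 0 := by
  show (lp.single (E := fun _ : ℕ => 𝕜) ∞ γ (1 : 𝕜)) β = _
  rw [lp.single_apply]
  by_cases h : β = γ
  · subst h; simp
  · simp [h]

theorem bioa_sgS1 (γ : ℕ) (a : A) : (toPt (sgS (𝕜 := 𝕜) A Y γ)).1 a = 0 := rfl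

theorem bioa_PX_EX (D : Dat 𝕜 Y τ) (q p : ℕ) (z : BB 𝕜 A Y) :
    D.PX q (D.EX p z) = D.EX (min q p) z :=
  Subtype.ext (D.Pc_Pc q p z)

theorem bioa_EX_zero (D : Dat 𝕜 Y τ) (p : ℕ) (z : BB 𝕜 A Y)
    (h1 : ∀ a, τ.lev a ≤ p → (toPt z).1 a = 0) (h2 : ∀ γ, D.lev γ ≤ p → (toPt z).2 γ = 0) :
    D.EX p z = 0 := by
  apply Subtype.ext
  rw [D.coe_EX]
  apply toPt_inj
  have h : D.P p (toPt z) = D.P p (toPt (0 : BB 𝕜 A Y)) :=
    D.P_congr (fun a ha => h1 a ha) (fun γ hγ => h2 γ hγ)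
  rw [D.toPt_Pc, h, ← D.toPt_Pc, map_zero]
  rfl

theorem bioa_ret (a b : A) : τ.ret (τ.lev a) b = some a ↔ a ≤ b := by
  rw [τ.ret_eq_some]
  constructor
  · intro h; exact h.1
  · intro h
    refine ⟨h, le_rfl, fun c hc hcl => ?_⟩
    rcases τ.total b a c h hc with h1 | h1
    · rcases eq_or_lt_of_le h1 with h2 | h2
      · exact h2.symm.le
      · exact absurd (τ.lev_lt _ _ h2) (not_lt.2 hcl)
    · exact h1

theorem bioa_nd (D : Dat 𝕜 Y τ) (a b : A) (y : Y) :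
    D.nd b (D.Jn a y) = (open Classical in if a ≤ b then y else 0) := by
  classical
  show D.nd b (D.EX (τ.lev a) (sgN a y)) = _
  rw [D.nd_EX]
  by_cases h : a ≤ b
  · rw [(bioa_ret a b).2 h]
    rw [if_pos h, Option.elim_some, bioa_sgN, if_pos rfl]
  · rw [if_neg h]
    rcases hr : τ.ret (τ.lev a) b with _ | c
    · rfl
    · rw [Option.elim_some, bioa_sgN, if_neg]
      rintro rfl
      exact h ((bioa_ret _ _).1 hr)

theorem bioa_ndv (D : Dat 𝕜 Y τ) (γ : ℕ) (a : A) : D.nd a (D.dv γ) = 0 := by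
  show D.nd a (D.EX (D.lev γ) (sgS A Y γ)) = _
  rw [D.nd_EX]
  rcases τ.ret (D.lev γ) a with _ | c
  · rfl
  · rfl

theorem bioa_inran_Jn (D : Dat 𝕜 Y τ) (a : A) (y : Y) (q : ℕ) (hq : q < τ.lev a) :
    D.PX q (D.Jn a y) = 0 := by
  show D.PX q (D.EX (τ.lev a) (sgN a y)) = 0
  rw [bioa_PX_EX, min_eq_left hq.le]
  apply bioa_EX_zero
  · intro b hb
    rw [bioa_sgN, if_neg]
    rintro rfl
    omega
  · intro γ _
    exact bioa_sgN2 a y γ

theorem bioa_inran_dv (D : Dat 𝕜 Y τ) (γ : ℕ) (q : ℕ) (hq : q < D.lev γ) :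
    D.PX q (D.dv γ) = 0 := by
  show D.PX q (D.EX (D.lev γ) (sgS A Y γ)) = 0
  rw [bioa_PX_EX, min_eq_left hq.le]
  apply bioa_EX_zero
  · intro b _
    exact bioa_sgS1 γ b
  · intro β hβ
    rw [bioa_sgS, if_neg]
    rintro rfl
    omega

theorem bioa_fix_Jn (D : Dat 𝕜 Y τ) (a : A) (y : Y) (q : ℕ) (hq : τ.lev a ≤ q) :
    D.PX q (D.Jn a y) = D.Jn a y := by
  show D.PX q (D.EX (τ.lev a) (sgN a y)) = D.EX (τ.lev a) (sgN a y)
  rw [bioa_PX_EX, min_eq_right hq]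

theorem bioa_fix_dv (D : Dat 𝕜 Y τ) (γ : ℕ) (q : ℕ) (hq : D.lev γ ≤ q) :
    D.PX q (D.dv γ) = D.dv γ := by
  show D.PX q (D.EX (D.lev γ) (sgS A Y γ)) = D.EX (D.lev γ) (sgS A Y γ)
  rw [bioa_PX_EX, min_eq_right hq]

theorem cal_bioa (D : Dat 𝕜 Y τ) : BIOAStmt D := by
  classical
  refine ⟨bioa_nd D, ?_, ?_, ?_, ?_, ?_, ?_, ?_⟩
  · intro a b y
    show D.nd b (D.Jn a y) - D.nd b (D.PX (τ.lev b - 1) (D.Jn a y)) = _
    rw [D.nd_PX]
    have hret : ∀ c, τ.ret (τ.lev b - 1) b = some c → c < b := by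
      intro c hc
      obtain ⟨h1, h2, -⟩ := τ.ret_eq_some.1 hc
      refine lt_of_le_of_ne h1 ?_
      rintro rfl
      have := τ.lev_pos c
      omega
    by_cases hab : a = b
    · subst hab
      rw [if_pos rfl, bioa_nd, if_pos le_rfl]
      rcases hr : τ.ret (τ.lev a - 1) a with _ | c
      · simp
      · rw [Option.elim_some, bioa_nd, if_neg (not_le_of_gt (hret c hr)), sub_zero]
    · rw [if_neg hab, bioa_nd]
      by_cases hle : a ≤ b
      · have hlt : a < b := lt_of_le_of_ne hle hab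
        have hl := τ.lev_lt _ _ hlt
        rw [if_pos hle]
        rcases hr : τ.ret (τ.lev b - 1) b with _ | c
        · have := (τ.ret_eq_none.1 hr) a hle
          omega
        · obtain ⟨-, -, h3⟩ := τ.ret_eq_some.1 hr
          rw [Option.elim_some, bioa_nd, if_pos (h3 a hle (by omega)), sub_self]
      · rw [if_neg hle]
        rcases hr : τ.ret (τ.lev b - 1) b with _ | c
        · simp
        · rw [Option.elim_some, bioa_nd, if_neg, sub_zero]
          intro hac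
          exact hle (hac.trans (hret c hr).le)
  · intro a γ y
    show D.co γ (D.Jn a y) - D.co γ (D.PX (D.lev γ - 1) (D.Jn a y)) = 0
    by_cases h : τ.lev a ≤ D.lev γ - 1
    · rw [bioa_fix_Jn D a y _ h, sub_self]
    · rw [bioa_inran_Jn D a y _ (by omega), map_zero, sub_zero]
      show D.co γ (D.EX (τ.lev a) (sgN a y)) = 0
      rw [D.co_EX_le _ (by omega)]
      exact bioa_sgN2 a y γ
  · intro a γ
    show D.nd a (D.dv γ) - D.nd a (D.PX (τ.lev a - 1) (D.dv γ)) = 0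
    rw [D.nd_PX, bioa_ndv, zero_sub, neg_eq_zero]
    rcases τ.ret (τ.lev a - 1) a with _ | c
    · rfl
    · exact bioa_ndv D γ c
  · intro β γ
    show D.co β (D.dv γ) - D.co β (D.PX (D.lev β - 1) (D.dv γ)) = _
    have hpos := D.lev_pos β
    by_cases h : D.lev γ ≤ D.lev β - 1
    · rw [bioa_fix_dv D γ _ h, sub_self, if_neg]
      rintro rfl
      omega
    · rw [bioa_inran_dv D γ _ (by omega), map_zero, sub_zero]
      show D.co β (D.EX (D.lev γ) (sgS A Y γ)) = _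
      rw [D.co_EX_le _ (by omega)]
      exact bioa_sgS γ β
  · intro γ
    show D.co γ (D.EX (D.lev γ) (sgS A Y γ)) = 1
    rw [D.co_EX_le _ le_rfl, bioa_sgS, if_pos rfl]
  · intro a y
    have := τ.lev_pos a
    exact ⟨bioa_inran_Jn D a y _ (by omega), bioa_fix_Jn D a y _ le_rfl⟩
  · intro γ
    have := D.lev_pos γ
    exact ⟨bioa_inran_dv D γ _ (by omega), bioa_fix_dv D γ _ le_rfl⟩

end

end CAL
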