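import Pool.Agent.H27.CAL.Stmts2

/-!
# Project CAL, module PEX: the extension operators exist
-/

open scoped BigOperators ENNReal Topology
open Filter

namespace CAL

section
variable {𝕜 : Type*} [RCLike 𝕜] {A : Type*} [PartialOrder A] {Y : Type*} [NormedAddCommGroup Y]
  [NormedSpace 𝕜 Y] {τ : TreeLev A}

/-- node part of the extension -/
noncomputable def pex_N (τ : TreeLev A) (p : ℕ) (x : Pt 𝕜 A Y) : A → Y :=
  fun a => (τ.ret p a).elim 0 x.1

/-- scalar part of the extension, with fuel n -/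
noncomputable def pex_G (E : Pre 𝕜 Y τ) : ℕ → ℕ → Pt 𝕜 A Y → ℕ → 𝕜
  | 0 => fun _ _ _ => 0
  | (n + 1) => fun p x γ =>
      if E.lev γ ≤ p then x.2 γ
      else (E.pred γ).elim
        (mi 𝕜 (E.wt γ) * ev (E.b γ) ((pex_N τ p x, pex_G E n p x) : Pt 𝕜 A Y))
        (fun ξ => pex_G E n p x ξ + mi 𝕜 (E.wt γ) *
          (ev (E.b γ) ((pex_N τ p x, pex_G E n p x) : Pt 𝕜 A Y) -
            ev (E.b γ) ((pex_N τ (min p (E.lev ξ)) x, pex_G E n (min p (E.lev ξ)) x) :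
              Pt 𝕜 A Y)))

theorem pex_G_succ (E : Pre 𝕜 Y τ) (n p : ℕ) (x : Pt 𝕜 A Y) (γ : ℕ) :
    pex_G E (n + 1) p x γ = if E.lev γ ≤ p then x.2 γ
      else (E.pred γ).elim
        (mi 𝕜 (E.wt γ) * ev (E.b γ) ((pex_N τ p x, pex_G E n p x) : Pt 𝕜 A Y))
        (fun ξ => pex_G E n p x ξ + mi 𝕜 (E.wt γ) *
          (ev (E.b γ) ((pex_N τ p x, pex_G E n p x) : Pt 𝕜 A Y) -
            ev (E.b γ) ((pex_N τ (min p (E.lev ξ)) x, pex_G E n (min p (E.lev ξ)) x) :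
              Pt 𝕜 A Y))) := rfl

theorem pex_stab (E : Pre 𝕜 Y τ) : ∀ n m, n ≤ m → ∀ γ, E.lev γ ≤ n → ∀ p x,
    pex_G E n p x γ = pex_G E m p x γ := by
  intro n
  induction n with
  | zero =>
    intro m _ γ hγ
    have := E.lev_pos γ
    omega
  | succ n ih =>
    intro m hm γ hγ p x
    obtain ⟨m, rfl⟩ : ∃ k, m = k + 1 := ⟨m - 1, by omega⟩
    have hev : ∀ q, ev (E.b γ) ((pex_N τ q x, pex_G E n q x) : Pt 𝕜 A Y) =
        ev (E.b γ) ((pex_N τ q x, pex_G E m q x) : Pt 𝕜 A Y) := by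
      intro q
      apply ev_congr
      · intro β hβ
        have := E.b_sc γ β hβ
        exact ih m (by omega) β (by omega) q x
      · intro a _
        rfl
    rw [pex_G_succ, pex_G_succ]
    by_cases hle : E.lev γ ≤ p
    · rw [if_pos hle, if_pos hle]
    · rw [if_neg hle, if_neg hle]
      rcases hpr : E.pred γ with _ | ξ
      · simp only [Option.elim_none]
        rw [hev]
      · simp only [Option.elim_some]
        have := E.pred_lev γ ξ hpr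
        rw [hev, hev, ih m (by omega) ξ (by omega) p x]

/-- the extension -/
noncomputable def pex_P (E : Pre 𝕜 Y τ) (p : ℕ) (x : Pt 𝕜 A Y) : Pt 𝕜 A Y :=
  (pex_N τ p x, fun γ => pex_G E (E.lev γ) p x γ)

theorem pex_ev (E : Pre 𝕜 Y τ) (n γ : ℕ) (h : E.lev γ = n + 1) (q : ℕ) (x : Pt 𝕜 A Y) :
    ev (E.b γ) ((pex_N τ q x, pex_G E n q x) : Pt 𝕜 A Y) = ev (E.b γ) (pex_P E q x) := by
  apply ev_congr
  · intro β hβ
    have := E.b_sc γ β hβ
    exact (pex_stab E (E.lev β) n (by omega) β le_rfl q x).symm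
  · intro a _
    rfl

theorem cal_pex (E : Pre 𝕜 Y τ) : PEXStmt E := by
  refine ⟨⟨E.lev, E.wt, E.pred, E.b, E.Lv, pex_P E, E.lev_pos, E.fin, E.wt_le, E.pred_lev,
    E.pred_wt, E.b_norm, E.b_sc, E.b_nd, E.Lv_none, E.Lv_some, ?_, ?_, ?_, ?_⟩,
    rfl, rfl, rfl, rfl, rfl⟩
  · intro p x a
    rfl
  · intro p x γ h
    obtain ⟨n, hn⟩ : ∃ k, E.lev γ = k + 1 := ⟨E.lev γ - 1, by have := E.lev_pos γ; omega⟩
    show pex_G E (E.lev γ) p x γ = x.2 γ
    rw [hn, pex_G_succ, if_pos h]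
  · intro p x γ h hpr
    obtain ⟨n, hn⟩ : ∃ k, E.lev γ = k + 1 := ⟨E.lev γ - 1, by have := E.lev_pos γ; omega⟩
    show pex_G E (E.lev γ) p x γ = _
    rw [hn, pex_G_succ, if_neg (not_le_of_gt h), hpr, Option.elim_none]
    rw [pex_ev E n γ hn]
  · intro p x γ ξ h hpr
    obtain ⟨n, hn⟩ : ∃ k, E.lev γ = k + 1 := ⟨E.lev γ - 1, by have := E.lev_pos γ; omega⟩
    have hξ := E.pred_lev γ ξ hpr
    show pex_G E (E.lev γ) p x γ = pex_G E (E.lev ξ) p x ξ + _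
    rw [hn, pex_G_succ, if_neg (not_le_of_gt h), hpr, Option.elim_some]
    rw [pex_ev E n γ hn, pex_ev E n γ hn, ← pex_stab E (E.lev ξ) n (by omega) ξ le_rfl p x]

end

end CAL
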