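import Pool.Agent.H67.CAL.BIOA

/-!
# Project CAL, module UPX: upper estimate of matrices modulo compact operators
-/

open scoped BigOperators ENNReal Topology
open Filter

namespace CAL

section
variable {𝕜 : Type*} [RCLike 𝕜] {A : Type*} [PartialOrder A] [TopologicalSpace A] [CompactSpace A]
  {Y : Type*} [NormedAddCommGroup Y] [NormedSpace 𝕜 Y] {τ : TreeLev A}

/-- the node coordinate as a linear map -/
def upx_1 (𝕜 : Type*) [RCLike 𝕜] {A Y : Type*} [NormedAddCommGroup Y] [NormedSpace 𝕜 Y] (a : A) :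
    BB 𝕜 A Y →ₗ[𝕜] Y where
  toFun z := (toPt z).1 a
  map_add' _ _ := rfl
  map_smul' _ _ := rfl

/-- the scalar coordinate as a linear map -/
def upx_2 (𝕜 : Type*) [RCLike 𝕜] {A Y : Type*} [NormedAddCommGroup Y] [NormedSpace 𝕜 Y] (γ : ℕ) :
    BB 𝕜 A Y →ₗ[𝕜] 𝕜 where
  toFun z := (toPt z).2 γ
  map_add' _ _ := rfl
  map_smul' _ _ := rfl

theorem upx_cpt {X Z : Type*} [NormedAddCommGroup X] [NormedSpace 𝕜 X] [NormedAddCommGroup Z]
    [NormedSpace 𝕜 Z] (f : X →L[𝕜] 𝕜) (v : Z) : IsCompactOperator (f.smulRight v) := by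
  have h := (isCompactOperator_of_locallyCompactSpace_dom f).clm_comp
    ((1 : 𝕜 →L[𝕜] 𝕜).smulRight v)
  have e : (f.smulRight v : X → Z) = ((1 : 𝕜 →L[𝕜] 𝕜).smulRight v : 𝕜 → Z) ∘ f := by
    ext x
    simp
  rw [e]
  exact h

theorem upx_cpt_sum {X Z : Type*} [NormedAddCommGroup X] [NormedSpace 𝕜 X] [NormedAddCommGroup Z]
    [NormedSpace 𝕜 Z] {ι : Type*} (G : Finset ι) (f : ι → X →L[𝕜] 𝕜) (v : ι → Z) :
    IsCompactOperator (∑ γ ∈ G, (f γ).smulRight (v γ) : X →L[𝕜] Z) := by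
  classical
  induction G using Finset.induction_on with
  | empty => simpa using (isCompactOperator_zero : IsCompactOperator (0 : X → Z))
  | insert γ G hγ ih =>
    rw [Finset.sum_insert hγ]
    exact (upx_cpt (f γ) (v γ)).add ih

theorem upx_fix (D : Dat 𝕜 Y τ) (m : (A × A) →₀ 𝕜) :
    ∃ N, ∀ x, D.PX N (D.RX m x) = D.RX m x := by
  classical
  obtain ⟨p, hp⟩ : ∃ p, ∀ ab ∈ m.support, τ.lev ab.1 ≤ p := by
    refine ⟨m.support.sup (fun ab => τ.lev ab.1), fun ab hab => ?_⟩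
    exact Finset.le_sup (f := fun ab : A × A => τ.lev ab.1) hab
  refine ⟨p, fun x => ?_⟩
  unfold Dat.RX Finsupp.sum
  rw [ContinuousLinearMap.sum_apply, map_sum]
  apply Finset.sum_congr rfl
  intro ab hab
  rw [ContinuousLinearMap.smul_apply, map_smul, ContinuousLinearMap.comp_apply,
    bioa_fix_Jn D _ _ _ (hp ab hab)]

theorem cal_upx (D : Dat 𝕜 Y τ) (hc : ∀ a : A, IsClopen {b | a ≤ b}) (hval : VALStmt D hc) :
    UPXStmt D hc := by
  classical
  intro m
  obtain ⟨N, hN⟩ := upx_fix D m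
  set L : D.X →L[𝕜] D.X := (D.EX N).comp ((ContinuousLinearMap.inl 𝕜 _ _).comp
    ((ContinuousLinearMap.fst 𝕜 _ _).comp (D.X.subtypeL.comp (D.RX m)))) with hL
  have hLn : ‖L‖ ≤ 2 * ‖RC τ hc m‖ := by
    refine ContinuousLinearMap.opNorm_le_bound _ (by positivity) (fun x => ?_)
    show ‖D.EX N ((((D.RX m x : D.X) : BB 𝕜 A Y).1, 0) : BB 𝕜 A Y)‖ ≤ _
    refine (D.norm_EX_le N _).trans ?_
    rw [mul_assoc]
    apply mul_le_mul_of_nonneg_left _ (by norm_num)
    apply norm_BB_le (by positivity)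
    · intro a
      exact hval.1 m x a
    · intro γ
      show ‖(0 : 𝕜)‖ ≤ _
      rw [norm_zero]
      positivity
  set G : Finset ℕ := (D.fin N).toFinset with hG
  have hGm : ∀ d, d ∈ G ↔ D.lev d ≤ N := by
    intro d
    rw [hG, Set.Finite.mem_toFinset]
    rfl
  refine ⟨∑ γ ∈ G, ((D.co γ).comp (D.RX m)).smulRight (D.EX N (sgS A Y γ)), upx_cpt_sum _ _ _, ?_⟩
  have hEq : D.RX m - ∑ γ ∈ G, ((D.co γ).comp (D.RX m)).smulRight (D.EX N (sgS A Y γ)) = L := by
    ext1 x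
    rw [ContinuousLinearMap.sub_apply, ContinuousLinearMap.sum_apply, sub_eq_iff_eq_add]
    have h0 : D.EX N ((D.RX m x : BB 𝕜 A Y) - ((((D.RX m x : D.X) : BB 𝕜 A Y).1, 0) : BB 𝕜 A Y)
        - ∑ γ ∈ G, D.co γ (D.RX m x) • sgS A Y γ) = 0 := by
      apply bioa_EX_zero
      · intro a _
        change upx_1 𝕜 (A := A) (Y := Y) a (((D.RX m x : D.X) : BB 𝕜 A Y) -
          ((((D.RX m x : D.X) : BB 𝕜 A Y).1, 0) : BB 𝕜 A Y) -
          ∑ γ ∈ G, D.co γ (D.RX m x) • sgS A Y γ) = 0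
        rw [map_sub, map_sub, map_sum, Finset.sum_eq_zero, sub_zero]
        · exact sub_self _
        · intro γ _
          rw [map_smul]
          exact smul_zero _
      · intro β hβ
        change upx_2 𝕜 (A := A) (Y := Y) β (((D.RX m x : D.X) : BB 𝕜 A Y) -
          ((((D.RX m x : D.X) : BB 𝕜 A Y).1, 0) : BB 𝕜 A Y) -
          ∑ γ ∈ G, D.co γ (D.RX m x) • sgS A Y γ) = 0
        rw [map_sub, map_sub, map_sum, Finset.sum_eq_single β]
        · rw [map_smul]
          show (toPt ((D.RX m x : D.X) : BB 𝕜 A Y)).2 β - 0 - _ • (toPt (sgS A Y β)).2 β = 0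
          rw [bioa_sgS, if_pos rfl, sub_zero, smul_eq_mul, mul_one, D.co_apply, sub_self]
        · intro γ _ hne
          rw [map_smul]
          show _ • (toPt (sgS A Y γ)).2 β = 0
          rw [bioa_sgS, if_neg hne.symm, smul_zero]
        · intro h
          exact absurd ((hGm β).2 hβ) h
    rw [map_sub, map_sub, map_sum, sub_eq_zero, sub_eq_iff_eq_add] at h0
    have h1 : D.EX N (D.RX m x : BB 𝕜 A Y) = D.RX m x := hN x
    rw [h1] at h0
    refine h0.trans ?_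
    rw [add_comm]
    congr 1
    apply Finset.sum_congr rfl
    intro γ _
    rw [map_smul]
    rfl
  rw [hEq]
  exact hLn

end

end CAL
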