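import Pool.Agent.H67.CAL.BIOA

/-!
# Project CAL, module VAL: values of matrices at the nodes
-/

open scoped BigOperators ENNReal Topology
open Filter

namespace CAL

section
variable {𝕜 : Type*} [RCLike 𝕜] {A : Type*} [PartialOrder A] [TopologicalSpace A] [CompactSpace A]
  {Y : Type*} [NormedAddCommGroup Y] [NormedSpace 𝕜 Y] {τ : TreeLev A}

theorem val_RX (D : Dat 𝕜 Y τ) (m : (A × A) →₀ 𝕜) (x : D.X) (a : A) :
    D.nd a (D.RX m x) = m.sum fun ab c => c • (open Classical in
      if ab.1 ≤ a then D.dn ab.2 x else 0) := by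
  classical
  unfold Dat.RX Finsupp.sum
  rw [ContinuousLinearMap.sum_apply, map_sum]
  apply Finset.sum_congr rfl
  intro ab _
  rw [ContinuousLinearMap.smul_apply, map_smul, ContinuousLinearMap.comp_apply, bioa_nd]

theorem val_RC (hc : ∀ a : A, IsClopen {b | a ≤ b}) (m : (A × A) →₀ 𝕜) (f : C(A, 𝕜)) (a : A) :
    (RC τ hc m f) a = m.sum fun ab c => c * (dC 𝕜 τ ab.2 f * (open Classical in
      if ab.1 ≤ a then 1 else 0)) := by
  classical
  unfold RC Finsupp.sum
  rw [ContinuousLinearMap.sum_apply, ContinuousMap.sum_apply]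
  apply Finset.sum_congr rfl
  intro ab _
  rw [ContinuousLinearMap.smul_apply, ContinuousLinearMap.smulRight_apply,
    ContinuousMap.smul_apply, ContinuousMap.smul_apply, smul_eq_mul, smul_eq_mul]
  congr 2

theorem val_dC (d : A) (f : C(A, 𝕜)) :
    dC 𝕜 τ d f = f d - (τ.ret (τ.lev d - 1) d).elim 0 (fun b => f b) := by
  unfold dC
  rw [ContinuousLinearMap.sub_apply]
  rcases τ.ret (τ.lev d - 1) d with _ | c <;> rfl

theorem val_dn (D : Dat 𝕜 Y τ) (d : A) (x : D.X) :
    D.dn d x = D.nd d x - (τ.ret (τ.lev d - 1) d).elim 0 (fun b => D.nd b x) := by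
  show D.nd d x - D.nd d (D.PX (τ.lev d - 1) x) = _
  rw [D.nd_PX]

theorem cal_val (D : Dat 𝕜 Y τ) (hc : ∀ a : A, IsClopen {b | a ≤ b}) (hbio : BIOStmt D) :
    VALStmt D hc := by
  classical
  obtain ⟨b1, b2, b3, b4, b5, b6, b7, b8, b9, b10, b11, b12, b13, b14⟩ := hbio
  constructor
  · intro m x a
    by_cases hv : ‖D.nd a (D.RX m x)‖ = 0
    · rw [hv]; positivity
    obtain ⟨g, hg1, hg2⟩ := exists_dual_vector 𝕜 (D.nd a (D.RX m x)) hv
    obtain ⟨p, hp⟩ : ∃ p, ∀ ab ∈ m.support, τ.lev ab.2 ≤ p := by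
      refine ⟨m.support.sup (fun ab => τ.lev ab.2), fun ab hab => ?_⟩
      exact Finset.le_sup (f := fun ab : A × A => τ.lev ab.2) hab
    set N : Finset A := (τ.fin p).toFinset with hN
    have hNm : ∀ d, d ∈ N ↔ τ.lev d ≤ p := by
      intro d
      rw [hN, Set.Finite.mem_toFinset]
      rfl
    set G : Finset ℕ := (D.fin p).toFinset with hG
    have hGm : ∀ d, d ∈ G ↔ D.lev d ≤ p := by
      intro d
      rw [hG, Set.Finite.mem_toFinset]
      rfl
    set f : C(A, 𝕜) := ∑ d ∈ N, g (D.dn d x) • chi 𝕜 hc d with hf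
    have hfv : ∀ b, f b = g (D.nd b (D.PX p x)) := by
      intro b
      rw [b14 p N G hNm hGm x, map_add, map_sum, map_sum, map_add, map_sum, map_sum, hf,
        ContinuousMap.sum_apply]
      have h0 : ∑ γ ∈ G, g (D.nd b (D.ds γ x • D.dv γ)) = 0 := by
        apply Finset.sum_eq_zero
        intro γ _
        rw [map_smul, bioa_ndv, smul_zero, map_zero]
      rw [h0, add_zero]
      apply Finset.sum_congr rfl
      intro d _
      rw [b1, ContinuousMap.smul_apply, smul_eq_mul]
      show g (D.dn d x) * Set.indicator {b | d ≤ b} (fun _ => (1 : 𝕜)) b = _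
      by_cases h : d ≤ b
      · rw [if_pos h, Set.indicator_of_mem (by exact h), mul_one]
      · rw [if_neg h, Set.indicator_of_notMem (by exact h), mul_zero, map_zero]
    have hnd : ∀ b, τ.lev b ≤ p → D.nd b (D.PX p x) = D.nd b x := by
      intro b hb
      rw [D.nd_PX, τ.ret_self hb, Option.elim_some]
    have hfn : ‖f‖ ≤ ‖x‖ := by
      rw [ContinuousMap.norm_le _ (norm_nonneg x)]
      intro b
      rw [hfv]
      refine (g.le_opNorm _).trans ?_
      rw [hg1, one_mul, D.nd_PX]
      rcases τ.ret p b with _ | c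
      · simp
      · exact D.norm_nd_le c x
    have hdC : ∀ d, τ.lev d ≤ p → dC 𝕜 τ d f = g (D.dn d x) := by
      intro d hd
      rw [val_dC, val_dn, hfv, hnd d hd, map_sub]
      congr 1
      rcases hr : τ.ret (τ.lev d - 1) d with _ | c
      · simp
      · rw [Option.elim_some, Option.elim_some, hfv, hnd]
        have := (τ.ret_eq_some.1 hr).2.1
        omega
    have hval : (RC τ hc m f) a = g (D.nd a (D.RX m x)) := by
      rw [val_RC, val_RX]
      unfold Finsupp.sum
      rw [map_sum]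
      apply Finset.sum_congr rfl
      intro ab hab
      beta_reduce
      rw [map_smul, smul_eq_mul, hdC _ (hp ab hab)]
      by_cases h : ab.1 ≤ a
      · rw [if_pos h, if_pos h, mul_one]
      · rw [if_neg h, if_neg h, mul_zero, map_zero]
    calc ‖D.nd a (D.RX m x)‖ = ‖(RC τ hc m f) a‖ := by
          rw [hval, hg2, RCLike.norm_ofReal, abs_of_nonneg (norm_nonneg _)]
      _ ≤ ‖RC τ hc m f‖ := ContinuousMap.norm_coe_le_norm _ a
      _ ≤ ‖RC τ hc m‖ * ‖f‖ := ContinuousLinearMap.le_opNorm _ _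
      _ ≤ ‖RC τ hc m‖ * ‖x‖ := by gcongr
  · intro m f y p x hp hx a
    rw [val_RC, val_RX]
    unfold Finsupp.sum
    rw [Finset.sum_smul]
    apply Finset.sum_congr rfl
    intro ab hab
    have hd : D.dn ab.2 x = dC 𝕜 τ ab.2 f • y := by
      rw [val_dn, val_dC, hx _ (hp ab hab), sub_smul]
      congr 1
      rcases hr : τ.ret (τ.lev ab.2 - 1) ab.2 with _ | c
      · simp
      · rw [Option.elim_some, Option.elim_some, hx]
        have := (τ.ret_eq_some.1 hr).2.1
        have := hp ab hab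
        omega
    beta_reduce
    rw [hd]
    by_cases h : ab.1 ≤ a
    · rw [if_pos h, if_pos h, mul_one, smul_smul]
    · rw [if_neg h, if_neg h, mul_zero, mul_zero, zero_smul, smul_zero]

end

end CAL
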