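import Pool.Agent.H67.CAL.BIOA

/-!
# Project CAL, module BIOB: biorthogonality, second part
-/

open scoped BigOperators ENNReal Topology
open Filter

namespace CAL

section
variable {𝕜 : Type*} [RCLike 𝕜] {A : Type*} [PartialOrder A] {Y : Type*} [NormedAddCommGroup Y]
  [NormedSpace 𝕜 Y] {τ : TreeLev A}

theorem cal_biob (D : Dat 𝕜 Y τ) : BIOBStmt D := by
  refine ⟨?_, ?_, ?_, ?_, ?_, ?_⟩
  · intro p a x h
    show D.nd a (D.PX p x) - D.nd a (D.PX (τ.lev a - 1) (D.PX p x)) =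
      D.nd a x - D.nd a (D.PX (τ.lev a - 1) x)
    rw [D.PX_PX, min_eq_left (by omega), D.nd_PX p, τ.ret_self h, Option.elim_some]
  · intro p a x h
    show D.nd a (D.PX p x) - D.nd a (D.PX (τ.lev a - 1) (D.PX p x)) = 0
    rw [D.PX_PX, min_eq_right (by omega), sub_self]
  · intro p γ x h
    show D.co γ (D.PX p x) - D.co γ (D.PX (D.lev γ - 1) (D.PX p x)) =
      D.co γ x - D.co γ (D.PX (D.lev γ - 1) x)
    rw [D.PX_PX, min_eq_left (by omega), D.co_PX_le x h]
  · intro p γ x h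
    show D.co γ (D.PX p x) - D.co γ (D.PX (D.lev γ - 1) (D.PX p x)) = 0
    rw [D.PX_PX, min_eq_right (by omega), sub_self]
  · intro a x
    show D.nd a x = D.nd a x - D.nd a (D.PX (τ.lev a - 1) x) + _
    rw [D.nd_PX, sub_add_cancel]
  · intro p x h1 h2
    show D.EX p (x : BB 𝕜 A Y) = 0
    apply bioa_EX_zero
    · intro a ha
      exact h1 a ha
    · intro γ hγ
      exact h2 γ hγ

end

end CAL
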